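import Pool.Agent.Lib.MP_62d77c_ag.R.Fin

set_option autoImplicit false

namespace Pool.Agent.Results.MP_62d77c_ag.Threefolds

open Pool.Agent.Lib.MP_62d77c_ag

theorem result {A : Type} [CommRing A] [IsDomain A] [CharZero A]
    (𝒜 : ℕ → AddSubgroup A) [GradedRing 𝒜]
    (hfg : ∃ s : Finset A, (∀ a ∈ s, a ∈ 𝒜 1) ∧ Subring.closure (s : Set A) = ⊤)
    (hdim : Algebra.trdeg ℤ A = 4)
    (hreg : ∀ x : ProjectiveSpectrum 𝒜, IsRegularLocalRing (loc x))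
    (hsm : ∀ x : ProjectiveSpectrum 𝒜, CharZero (kap x) → Algebra.FormallySmooth ℤ (loc x))
    (c : ProjectiveSpectrum 𝒜 →₀ ℚ) (hc : ∀ x ∈ c.support, CharZero (kap x) ∧ tr x = 1)
    (htriv : CohTriv c) :
    ∃ y : ProjectiveSpectrum 𝒜 →₀ ℚ, (∀ x ∈ y.support, ¬CharZero (kap x) ∧ tr x = 2) ∧
      ∀ z : ProjectiveSpectrum 𝒜, ¬CharZero (kap z) → tr z = 2 → Orth 3 (c + y) z := by
  obtain ⟨y, h1, h2⟩ := R.main_two hfg (by rw [hdim]; norm_num) hreg hsm c hc htriv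
  exact ⟨y, h1, fun z hz e => h2 z hz (by rw [e]; norm_num)⟩

end Pool.Agent.Results.MP_62d77c_ag.Threefolds
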